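import Pool.Agent.W_448s8f_h76.FiD
import Pool.Agent.W_448fc_h67.FcB

/-!
The bounded sum of a component with an anchor `v`: decomposition by the set of the labels at
least `k` (MP_448cb3_co, S8, small `m`).
-/

namespace Pool.Agent.GaussPoset.Fi

set_option linter.unusedSectionVars false

open Polynomial Finset

universe u

section TPart

variable {Q : Type u} [Fintype Q] [PartialOrder Q] [DecidableEq Q]

/-- the low part with bounds -/
def StLwB (i k : ℕ) (β : Q → ℕ) (L : Finset Q) (e : {x : Q // x ∉ L} → ℕ)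
    (F : Finset {x : Q // x ∉ L}) : Prop :=
  Lw i k L e F ∧ ∀ x : {x : Q // x ∉ L}, (β x : ℤ) ≤ (e x : ℤ) - ((i - lev (x : Q) : ℕ) : ℤ)

lemma StA_split {i k : ℕ} {β : Q → ℕ} (hβ : ∀ x, β x ≤ k) {L : Finset Q}
    (hL : ∀ x y, x ≤ y → x ∈ L → y ∈ L) (e : Q → ℕ) (F : Finset Q) :
    (Cst i ∅ 0 β e F ∧ upL i k e F = L) ↔
      Cst i ∅ 0 (fun _ => k) (fun x : {x : Q // x ∈ L} => e x) (F.subtype (fun x => x ∈ L)) ∧
      StLwB i k β L (fun x => e x) (F.subtype (fun x => x ∉ L)) := by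
  have key := upL_split (i := i) (k := k) hL e F
  rw [cst_empty_iff]
  constructor
  · rintro ⟨⟨hV, hb⟩, hu⟩
    obtain ⟨h1, h2⟩ := key.mp ⟨hV, hu⟩
    refine ⟨h1, h2, fun x => ?_⟩
    have hxF : (x : Q) ∉ F := by
      intro h
      have h9 : (x : Q) ∈ upL i k e F := mem_upL.mpr (Or.inl h)
      rw [hu] at h9
      exact x.2 h9
    have := hb x hxF
    unfold rho at this
    exact this
  · rintro ⟨h1, h2, h3⟩
    obtain ⟨hV, hu⟩ := key.mpr ⟨h1, h2⟩
    refine ⟨⟨hV, fun x hx => ?_⟩, hu⟩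
    by_cases hxL : x ∈ L
    · rw [← hu, mem_upL] at hxL
      have h4 := hxL.resolve_left hx
      have h5 := hβ x
      have h6 : (β x : ℤ) ≤ k := by exact_mod_cast h5
      exact h6.trans h4
    · have := h3 ⟨x, hxL⟩
      unfold rho
      exact this

/-- decomposition of a bounded sum -/
theorem StA_ZB_upL {i k : ℕ} {β : Q → ℕ} (hβ : ∀ x, β x ≤ k) (S0 : Finset Q → Prop)
    (hS0 : ∀ e F, Cst i ∅ 0 β e F → S0 (upL i k e F)) (n : ℕ) :
    ZB i ∅ 0 β n = ∑ L ∈ upsF S0, ∑ ab ∈ antidiagonal n,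
      ZB (P := {x // x ∈ L}) i ∅ 0 (fun _ => k) ab.1 * SC (StLwB i k β L) ab.2 := by
  rw [ZB_eq_SC, SC_fiber _ (upL i k) (upsF S0) (fun e F h => mem_upsF.mpr
    ⟨fun a b hab ha => upL_up (cst_empty_iff.mp h).1 hab ha, hS0 e F h⟩) n]
  refine Finset.sum_congr rfl fun L hL => ?_
  have h2 := SC_prod (fun x => x ∈ L) (fun (e : Q → ℕ) F => Cst i ∅ 0 β e F ∧ upL i k e F = L)
    (Cst i ∅ 0 (fun _ => k)) (StLwB i k β L)
    (fun e F => StA_split hβ (mem_upsF.mp hL).1 e F) n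
  rw [h2]
  refine Finset.sum_congr rfl fun ab _ => ?_
  have h4 : ZB (P := {x // x ∈ L}) i ∅ 0 (fun _ => k) ab.1 =
      @SC {x // x ∈ L} (Subtype.fintype fun x => x ∈ L) _ (Cst i ∅ 0 fun _ => k) ab.1 :=
    SC_inst _ _ _ _
  rw [h4]

lemma StA_ct_filter (i k : ℕ) {v : Q} {U : Finset Q} (hU : ∀ x, x ∈ U ↔ v ≤ x) :
    ct i k v = ∑ x ∈ U, min k (lev x - i) := by
  classical
  have h1 : U = univ.filter (fun x => v ≤ x) := by
    ext x
    rw [hU, mem_filter]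
    simp
  rw [ct_eq_sum, h1, Finset.sum_filter]

lemma StA_ct_le_cw {i k : ℕ} {v : Q} {L : Finset Q} (hL : ∀ x y, x ≤ y → x ∈ L → y ∈ L)
    (hv : v ∈ L) : ct i k v ≤ cw {x // x ∈ L} i k := by
  classical
  rw [cw_subtype hL, StA_ct_filter i k (U := univ.filter (fun x => v ≤ x)) (fun x => by simp)]
  refine Finset.sum_le_sum_of_subset fun x hx => ?_
  exact hL v x (mem_filter.mp hx).2 hv

lemma StA_anchor {i k : ℕ} {β : Q → ℕ} {v : Q} (hv : β v = k) {e : Q → ℕ} {F : Finset Q}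
    (h : Cst i ∅ 0 β e F) : v ∈ upL i k e F := by
  rw [cst_empty_iff] at h
  rw [mem_upL]
  by_cases hvF : v ∈ F
  · exact Or.inl hvF
  · right
    have := h.2 v hvF
    rwa [hv] at this

/-- the order of the bounded sum below the first pole -/
theorem StA_dvd {i k p : ℕ} {v : Q} {β : Q → ℕ} (hβ : ∀ x, β x ≤ k) (hv : β v = k)
    (hcl : ∀ L : Finset Q, (∀ x y, x ≤ y → x ∈ L → y ∈ L) → v ∈ L → ∀ n < p,
      (1 + X : ℤ[X]) ^ 2 ∣ Z {x // x ∈ L} (i + k) n) {n : ℕ} (hn : n < ct i k v + p) :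
    (1 + X : ℤ[X]) ^ 2 ∣ ZB i ∅ 0 β n := by
  classical
  rw [StA_ZB_upL hβ (fun L => v ∈ L) (fun e F h => StA_anchor hv h)]
  refine Finset.dvd_sum fun L hL => Finset.dvd_sum fun ab hab => ?_
  rw [mem_upsF] at hL
  rw [HasAntidiagonal.mem_antidiagonal] at hab
  refine dvd_mul_of_dvd_left ?_ _
  have h1 := StA_ct_le_cw (i := i) (k := k) hL.1 hL.2
  rcases Nat.lt_or_ge ab.1 (cw {x // x ∈ L} i k) with h2 | h2
  · rw [ZB_const_zero h2]
    exact dvd_zero _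
  · obtain ⟨c, hc⟩ := Nat.exists_eq_add_of_le' h2
    rw [hc, ZB_const]
    exact hcl L hL.1 hL.2 c (by omega)

/-- the first pole -/
theorem StA_lead {i k p s : ℕ} {v : Q} (hk : 1 ≤ k) (hiv : i < lev v)
    (hout : ∀ x, ¬ v ≤ x → i + k ≤ lev x)
    (hcl : ∀ L : Finset Q, (∀ x y, x ≤ y → x ∈ L → y ∈ L) → v ∈ L → ∀ n < p,
      (1 + X : ℤ[X]) ^ 2 ∣ Z {x // x ∈ L} (i + k) n)
    (hld : ∀ L : Finset Q, (∀ x, x ∈ L ↔ v ≤ x) →
      (1 + X : ℤ[X]) ^ 2 ∣ Z {x // x ∈ L} (i + k) p + X ^ s * (1 + X)) :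
    (1 + X : ℤ[X]) ^ 2 ∣ ZB i ∅ 0 (sgz v k) (ct i k v + p) + X ^ s * (1 + X) := by
  classical
  set U : Finset Q := univ.filter (fun x => v ≤ x) with hU
  have hmU : ∀ x, x ∈ U ↔ v ≤ x := fun x => by rw [hU, mem_filter]; simp
  have hUup : ∀ x y, x ≤ y → x ∈ U → y ∈ U := fun x y hxy hx =>
    (hmU y).mpr (((hmU x).mp hx).trans hxy)
  obtain ⟨-, -, h3⟩ := SC_core (i := i) (k := k) (B := p) (b := 2) (U := U) hk hUup
    (fun L => v ∈ L) (fun L hL hv x hx => hL v x ((hmU x).mp hx) hv)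
    (fun x hx => hout x (fun h => hx ((hmU x).mpr h)))
    (fun hv n hn => hcl U hUup hv n hn)
    (fun L hL hUL hne n hn => by
      refine hcl L hL (hUL ((hmU v).mpr le_rfl)) n ?_
      have h4 : (L \ U).Nonempty := by
        rw [Finset.sdiff_nonempty]
        intro h5
        exact hne (Finset.Subset.antisymm h5 hUL)
      have h5 := Finset.card_pos.mpr h4
      have h6 : 1 * 1 ≤ k * (L \ U).card := Nat.mul_le_mul hk h5
      omega)
  have h4 := h3 ((hmU v).mpr le_rfl)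
  have h5 : ZB i ∅ 0 (sgz v k) (ct i k v + p) =
      SC (fun (e : Q → ℕ) F => Vd i e F ∧ v ∈ upL i k e F)
        (p + ∑ x ∈ U, min k (lev x - i)) := by
    rw [ZB_eq_SC, StA_ct_filter i k hmU, Nat.add_comm]
    refine SC_congr (fun e F => ?_) _
    rw [cst_single_iff hiv, mem_upL, rho_of_lt hiv]
    constructor
    · rintro ⟨h6, h7⟩
      refine ⟨h6, h7.imp id fun h => ?_⟩
      exact_mod_cast h
    · rintro ⟨h6, h7⟩
      refine ⟨h6, h7.imp id fun h => ?_⟩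
      exact_mod_cast h
  rw [h5]
  have h6 := dvd_add h4 (hld U hmU)
  rwa [show ∀ a b c : ℤ[X], a - b + (b + c) = a + c from fun a b c => by ring] at h6

end TPart

section Map

variable {P : Type u} [Fintype P] [PartialOrder P] [DecidableEq P]
variable {Q : Type u} [Fintype Q] [PartialOrder Q] [DecidableEq Q]

/-- the sum of a set of `Q` is the sum of its image -/
lemma StA_Z_image {φ : Q → P} (hφ : ∀ x y, φ x ≤ φ y ↔ x ≤ y) {L : Finset Q} {L' : Finset P}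
    (hL' : ∀ y, y ∈ L' ↔ ∃ x ∈ L, φ x = y) (i n : ℕ) :
    Z {x // x ∈ L} i n = Z {x // x ∈ L'} i n := by
  classical
  have hinj : Function.Injective φ := fun x y h =>
    le_antisymm ((hφ x y).mp h.le) ((hφ y x).mp h.ge)
  have e : {x // x ∈ L} ≃o {x // x ∈ L'} :=
    { Equiv.ofBijective (fun x : {x // x ∈ L} => (⟨φ x, (hL' _).mpr ⟨x, x.2, rfl⟩⟩ :
        {x // x ∈ L'})) ⟨fun x y h => Subtype.ext (hinj (congrArg Subtype.val h)), fun y => by
          obtain ⟨x, hx, h⟩ := (hL' y).mp y.2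
          exact ⟨⟨x, hx⟩, Subtype.ext h⟩⟩ with
      map_rel_iff' := fun {x y} => hφ x y }
  exact Z_iso e i n

end Map

end Pool.Agent.GaussPoset.Fi
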