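import Pool.Agent.W_448s8f_h15.StA

/-!
The natural system used for the star joins at window `i`, level `2 m` (MP_448cb3_co, S8,
small `m`).
-/

namespace Pool.Agent.GaussPoset.Fi

set_option linter.unusedSectionVars false

open Polynomial Finset

universe u

variable {P : Type u} [Fintype P] [PartialOrder P] [DecidableEq P] {r i m K k p : ℕ}
  {N : Tops P → Finset P} {b : Tops P → ℕ} {θ : Tops P → P → ℕ}

/-- a fold end and an anchor of a light component -/
structure StG (i m k p : ℕ) (N : Tops P → Finset P) (b : Tops P → ℕ) (θ : Tops P → P → ℕ)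
    (f v : P) (Nc : Finset P) (co : P → ℕ × ℕ) : Prop where
  fold : Fd m f
  ft : FI i m N b θ f Nc co
  q1 : N (topOf v) = onlyB (topOf v)
  q2 : θ (topOf v) = fun x => lev x - i
  q3 : b (topOf v) = 1
  q5 : ∀ x, x ≤ (topOf v : P) → lev x ≤ 2 * m → x ∈ onlyB (topOf v)
  td : TD m (topOf v) v p
  ne : topOf f ≠ topOf v
  hk : i + k + 7 = 2 * m
  h8 : 2 * (i / 2) = 8

section

variable {f v : P} {Nc : Finset P} {co : P → ℕ × ℕ}

lemma StG.k_pos (W : WC r i m K N b θ) (S : StG i m k p N b θ f v Nc co) : 1 ≤ k := by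
  have := S.hk
  have := S.h8
  have := W.him
  omega

theorem StG.natTop (W : WC r i m K N b θ) (S : StG i m k p N b θ f v Nc co) (s : Tops P) :
    ∃ B, NatTop i s (bq i b f s) (Nq m N v s) (tq i θ f Nc co s) B := by
  have h4 := W.hi
  have him := W.him
  have W' := W.wi
  have hgr := W.gt.H.gradedBelow
  by_cases hs : s = topOf v
  · subst hs
    have e1 : Nq m N v (topOf v) = lowPart (2 * m) (topOf v : P) := Function.update_self _ _ _
    have e2 : bq i b f (topOf v) = 1 := by
      unfold bq
      rw [Function.update_of_ne (Ne.symm S.ne), S.q3]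
    have e3 : tq i θ f Nc co (topOf v) = fun x => lev x - i := by
      unfold tq
      rw [Function.update_of_ne (Ne.symm S.ne), S.q2]
    rw [e1, e2, e3]
    obtain ⟨x, hx, hl⟩ : ∃ x ≤ (topOf v : P), lev x = i := by
      obtain ⟨x, hx, hl⟩ := exists_above' (x := v) (j := i) (by rw [S.td.lev]; omega)
      refine ⟨x, ?_, hl⟩
      rw [W'.natSys.cp v x hx (W'.low S.td.lev.le)]
      exact le_topOf x
    exact ⟨_, (locData_light hgr ⟨x, mem_lowPart.mpr ⟨hx, by omega⟩, hl⟩).natTop (W'.lowUp _)
      (fun x hx => (mem_lowPart.mp hx).1) (fun x hx hxi => mem_lowPart.mpr ⟨hx, by omega⟩)⟩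
  · have e1 : Nq m N v s = N s := Function.update_of_ne hs _ _
    rw [e1]
    by_cases hs2 : s = topOf f
    · subst hs2
      have e2 : bq i b f (topOf f) = i / 2 := Function.update_self _ _ _
      have e3 : tq i θ f Nc co (topOf f) = thSg (2 * (i / 2) - 2) i Nc co :=
        Function.update_self _ _ _
      rw [e2, e3, S.ft.nat]
      exact ⟨_, S.ft.stair.natTop_less hgr (by omega) (by omega)⟩
    · have e2 : bq i b f s = b s := Function.update_of_ne hs2 _ _
      have e3 : tq i θ f Nc co s = θ s := Function.update_of_ne hs2 _ _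
      rw [e2, e3]
      exact W'.natTop s

lemma StG.natSys (W : WC r i m K N b θ) (S : StG i m k p N b θ f v Nc co) :
    NatSys (Nq m N v) := by
  choose B hB using S.natTop W
  exact natSys_of_tops hB

/-- the total order -/
lemma StG.sum_b (W : WC r i m K N b θ) (S : StG i m k p N b θ f v Nc co) :
    ∑ s, bq i b f s + 1 = (lv P i).card := by
  classical
  rw [← W.sum_b]
  unfold bq
  rw [Finset.sum_update_of_mem (mem_univ _), ← Finset.add_sum_erase univ b (mem_univ (topOf f)),
    S.ft.b, Finset.sdiff_singleton_eq_erase]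
  omega

/-- the thresholds only increase -/
lemma StG.th_le (S : StG i m k p N b θ f v Nc co) (s : Tops P) (x : P) :
    θ s x ≤ tq i θ f Nc co s x := by
  unfold tq
  by_cases hs : s = topOf f
  · subst hs
    rw [Function.update_self, S.ft.th]
    unfold thS thSg
    split_ifs
    · exact le_rfl
    · omega
  · rw [Function.update_of_ne hs]

/-- the threshold of the fold end -/
lemma StG.th_f (W : WC r i m K N b θ) (S : StG i m k p N b θ f v Nc co) :
    tq i θ f Nc co (topOf f) f = k + 1 := by
  have h4 := W.hi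
  have him := W.him
  have h8 := S.h8
  have hk := S.hk
  unfold tq
  rw [Function.update_self]
  unfold thSg
  rw [if_neg (fold_not_junk S.ft.stair.chart S.ft.mem
    (by rw [S.ft.cell]; show 1 ≤ m; omega)), S.ft.cell]
  simp only
  omega

/-- the old threshold of the fold end -/
lemma StG.th_f0 (W : WC r i m K N b θ) (S : StG i m k p N b θ f v Nc co) :
    θ (topOf f) f + 1 = k := by
  have h4 := W.hi
  have him := W.him
  have h8 := S.h8
  have hk := S.hk
  rw [W.fold_th S.fold]
  omega

/-- the new unnatural elements -/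
lemma StG.mem_unnat (W : WC r i m K N b θ) (S : StG i m k p N b θ f v Nc co) {x : P} :
    x ∈ unnat (Nq m N v) ↔ x ∈ unnat N ∨ (topOf x = topOf v ∧ 2 * m < lev x) := by
  have W' := W.wi
  have hlow := W'.lowUp (topOf v)
  constructor
  · intro h
    by_contra hcon
    rw [not_or] at hcon
    have h1 : x ∈ N (topOf x) := W'.natSys.mem_iff.mpr ⟨hcon.1, rfl⟩
    have h2 := Pool.Agent.GaussPoset.mem_unnat.mp h (topOf x)
    by_cases hs : topOf x = topOf v
    · rw [hs] at h2
      unfold Nq at h2
      rw [Function.update_self] at h2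
      refine h2 (mem_lowPart.mpr ⟨by rw [← hs]; exact le_topOf x, ?_⟩)
      by_contra h3
      exact hcon.2 ⟨hs, by omega⟩
    · unfold Nq at h2
      rw [Function.update_of_ne hs] at h2
      exact h2 h1
  · intro h
    rw [Pool.Agent.GaussPoset.mem_unnat]
    intro s hs
    have h3 := (S.natSys W).topOf_eq hs
    by_cases hsv : s = topOf v
    · subst hsv
      unfold Nq at hs
      rw [Function.update_self, mem_lowPart] at hs
      rcases h with h | h
      · have := W'.lt_lev h
        omega
      · omega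
    · unfold Nq at hs
      rw [Function.update_of_ne hsv] at hs
      rcases h with h | h
      · exact Pool.Agent.GaussPoset.mem_unnat.mp h s hs
      · exact hsv (h3.symm.trans h.1)

lemma StG.tw_ne (W : WC r i m K N b θ) (S : StG i m k p N b θ f v Nc co) {x : P}
    (hx : x ∈ twY (2 * m) N) : topOf x ≠ topOf v := by
  have W' := W.wi
  rw [← W'.twSys.cp x hx]
  intro h
  rcases W'.tw_inner hx with ⟨Nc', co', h'⟩ | ⟨Nc', co', h'⟩
  · have h1 := h'.rect.b_two
    rw [h, S.q3] at h1
    omega
  · have h1 := h'.bb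
    have h8 := S.h8
    rw [h, S.q3] at h1
    omega

theorem StG.twSys (W : WC r i m K N b θ) (S : StG i m k p N b θ f v Nc co) :
    TwSys (unnat (Nq m N v)) (twY (2 * m) N) topOf (twT N) where
  sub := fun x hx => (S.mem_unnat W).mpr (Or.inl (W.wi.twSys.sub hx))
  nat := by
    intro x hx h
    rcases (S.mem_unnat W).mp h with h | h
    · exact W.wi.twSys.nat x hx h
    · exact S.tw_ne W hx ((W.wi.twSys.cp x hx).symm.trans h.1)
  up := W.wi.twSys.up
  inj := W.wi.twSys.inj
  anti := W.wi.twSys.anti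
  cp := W.wi.twSys.cp

lemma StG.mem_Rq (W : WC r i m K N b θ) (S : StG i m k p N b θ f v Nc co) {x : P} :
    x ∈ Rq m N v ↔ x ∈ r2 (2 * m) N ∨ (topOf x = topOf v ∧ 2 * m < lev x) := by
  unfold Rq
  rw [mem_sdiff, S.mem_unnat W, mem_sdiff]
  constructor
  · rintro ⟨h1 | h1, h2⟩
    · exact Or.inl ⟨h1, h2⟩
    · exact Or.inr h1
  · rintro (⟨h1, h2⟩ | h1)
    · exact ⟨Or.inl h1, h2⟩
    · exact ⟨Or.inr h1, fun h => S.tw_ne W h h1.1⟩

lemma StG.lower (W : WC r i m K N b θ) (S : StG i m k p N b θ f v Nc co) :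
    ∀ x y, x ≤ y → y ∈ Rq m N v → x ∈ Rq m N v :=
  (S.twSys W).lower (S.natSys W).lower

lemma StG.lev_Rq (W : WC r i m K N b θ) (S : StG i m k p N b θ f v Nc co) {x : P}
    (hx : x ∈ Rq m N v) : 2 * m < lev x := by
  rcases (S.mem_Rq W).mp hx with h | h
  · exact W.wi.lt_lev (mem_sdiff.mp h).1
  · exact h.2

lemma StG.twinPair (W : WC r i m K N b θ) (S : StG i m k p N b θ f v Nc co) {x : P}
    (hx : x ∈ twY (2 * m) N) : TwinPair i (thX (twY (2 * m) N) (twT N)
      (fun x => tq i θ f Nc co (topOf x) x)) (K - 1) (twT N x) x := by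
  have T := S.twSys W
  have h1 := mem_twY.mp hx
  have hnY : twT N x ∉ twY (2 * m) N := fun h => T.nat x hx (T.sub h)
  refine (W.wi.twinPair hx).mono ?_ ?_ ?_
  · rw [thX_not hnY, thX_not hnY]
    exact S.th_le _ _
  · rw [thX_of hx, thX_not hnY]
  · rw [thX_not hnY]
    choose B hB using S.natTop W
    have hn : twT N x ∈ Nq m N v (topOf (twT N x)) :=
      (S.natSys W).mem_iff.mpr ⟨T.nat x hx, rfl⟩
    exact ((hB (topOf (twT N x))).data _ (S.natSys W) rfl _ _ (fun _ _ => rfl)
      (fun _ _ => Iff.rfl)).le (twT N x) (T.nat x hx) rfl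

/-- bounded sums off the frozen set -/
theorem StG.bounds (W : WC r i m K N b θ) (S : StG i m k p N b θ f v Nc co) (β : P → ℕ)
    (hβ : ∀ x, x ∉ Rq m N v → β x ≤ thX (twY (2 * m) N) (twT N)
      (fun x => tq i θ f Nc co (topOf x) x) x) (n : ℕ) (hn : n < K - 1) :
    (1 + X : ℤ[X]) ^ ((lv P i).card - 1) ∣ ZB i (Rq m N v) 0 β n := by
  choose B hB using S.natTop W
  have h := bounds_of_tops hB (S.twSys W) (K - 1) (fun x hx => S.twinPair W hx) β hβ n hn
  have h2 := S.sum_b W
  rwa [show ∑ s, bq i b f s = (lv P i).card - 1 by omega] at h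

end

end Pool.Agent.GaussPoset.Fi
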