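import Pool.Agent.W_448s8f_h15.StB

/-!
The two factors off the frozen set (MP_448cb3_co, S8, small `m`).
-/

namespace Pool.Agent.GaussPoset.Fi

set_option linter.unusedSectionVars false

open Polynomial Finset

universe u

variable {P : Type u} [Fintype P] [PartialOrder P] [DecidableEq P] {r i m K k p : ℕ}
  {N : Tops P → Finset P} {b : Tops P → ℕ} {θ : Tops P → P → ℕ}

lemma StC_top_iff (W : WC r i m K N b θ) {x : P} (hl : lev x ≤ 2 * m) (t : Tops P) :
    topOf x = t ↔ x ≤ (t : P) := by
  constructor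
  · rintro rfl
    exact le_topOf x
  · intro h
    have hx : x ∈ N (topOf x) := W.wi.natSys.mem_iff.mpr ⟨W.wi.low hl, rfl⟩
    exact (Subtype.ext (W.wi.natSys.top_eq hx t.2 h)).symm

/-- natural elements of different tops have no common upper bound -/
lemma StC_disjL (W : WC r i m K N b θ) {x x' y : P} (hx : lev x ≤ 2 * m)
    (hx' : lev x' ≤ 2 * m) (ht : topOf x ≠ topOf x') (h1 : x ≤ y) (h2 : x' ≤ y) : False :=
  ht ((W.wi.natSys.cp x y h1 (W.wi.low hx)).trans (W.wi.natSys.cp x' y h2 (W.wi.low hx')).symm)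

section

variable {f v : P} {Nc : Finset P} {co : P → ℕ × ℕ}

lemma StG.cp (W : WC r i m K N b θ) (S : StG i m k p N b θ f v Nc co) {x y : P} (hxy : x ≤ y)
    (hx : x ∉ Rq m N v) : topOf x = topOf y :=
  (S.twSys W).cp' (S.natSys W).cp x y hxy hx

lemma StG.up (W : WC r i m K N b θ) (S : StG i m k p N b θ f v Nc co) :
    ∀ x y : P, x ≤ y → x ∉ Rq m N v → y ∉ Rq m N v :=
  fun x y hxy hx hy => hx (S.lower W x y hxy hy)

lemma StG.upT (W : WC r i m K N b θ) (S : StG i m k p N b θ f v Nc co) :
    ∀ x y : QO m N v, x ≤ y → topOf (x : P) = topOf v → topOf (y : P) = topOf v :=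
  fun x y hxy hx => (S.cp W hxy x.2).symm.trans hx

lemma StG.upR (W : WC r i m K N b θ) (S : StG i m k p N b θ f v Nc co) :
    ∀ x y : QO m N v, x ≤ y → ¬ topOf (x : P) = topOf v → ¬ topOf (y : P) = topOf v :=
  fun x y hxy hx hy => hx ((S.cp W hxy x.2).trans hy)

lemma StG.levT (W : WC r i m K N b θ) (S : StG i m k p N b θ f v Nc co) (x : QT m N v) :
    lev x = lev (x.1.1 : P) := by
  rw [lev_subtype (S.upT W), lev_subtype (S.up W)]

lemma StG.levR (W : WC r i m K N b θ) (S : StG i m k p N b θ f v Nc co) (x : QR m N v) :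
    lev x = lev (x.1.1 : P) := by
  rw [lev_subtype (S.upR W), lev_subtype (S.up W)]

lemma StG.nabR (W : WC r i m K N b θ) (S : StG i m k p N b θ f v Nc co) (x : QR m N v) (l : ℕ) :
    nab l x = nab l (x.1.1 : P) := by
  rw [nab_sub (S.upR W), nab_sub (S.up W)]

lemma StG.ctT (W : WC r i m K N b θ) (S : StG i m k p N b θ f v Nc co) (x : QT m N v)
    (i' k' : ℕ) : ct i' k' x = ct i' k' (x.1.1 : P) := by
  rw [ct_sub (S.upT W), ct_sub (S.up W)]

lemma StG.ctR (W : WC r i m K N b θ) (S : StG i m k p N b θ f v Nc co) (x : QR m N v)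
    (i' k' : ℕ) : ct i' k' x = ct i' k' (x.1.1 : P) := by
  rw [ct_sub (S.upR W), ct_sub (S.up W)]

lemma StG.nstR (W : WC r i m K N b θ) (S : StG i m k p N b θ f v Nc co) (x : QR m N v)
    (i' k' : ℕ) : nst i' (fun _ => k') x = nst i' (fun _ => k') (x.1.1 : P) := by
  rw [nst_sub (S.upR W), nst_sub (S.up W)]

lemma StG.off (W : WC r i m K N b θ) (S : StG i m k p N b θ f v Nc co) {x : P}
    (hl : lev x ≤ 2 * m) : x ∉ Rq m N v := by
  intro h
  have := S.lev_Rq W h
  omega

lemma StG.mem_T (W : WC r i m K N b θ) (S : StG i m k p N b θ f v Nc co) {x : P}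
    (hx : x ∉ Rq m N v) (ht : topOf x = topOf v) : x ≤ (topOf v : P) ∧ lev x ≤ 2 * m := by
  refine ⟨by rw [← ht]; exact le_topOf x, ?_⟩
  by_contra hcon
  exact hx ((S.mem_Rq W).mpr (Or.inr ⟨ht, by omega⟩))

/-- the anchor -/
noncomputable def StG.vT (W : WC r i m K N b θ) (S : StG i m k p N b θ f v Nc co) : QT m N v :=
  ⟨⟨v, S.off W S.td.lev.le⟩, rfl⟩

/-- the fold end -/
noncomputable def StG.fR (W : WC r i m K N b θ) (S : StG i m k p N b θ f v Nc co) : QR m N v :=
  ⟨⟨f, S.off W S.fold.1.le⟩, S.ne⟩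

/-- up-closed sets of the component of `v` -/
theorem StG.Z_T (W : WC r i m K N b θ) (S : StG i m k p N b θ f v Nc co)
    {L : Finset (QT m N v)} (hL : ∀ x y, x ≤ y → x ∈ L → y ∈ L) :
    ∃ L' : Finset P, L' ⊆ lowPart (2 * m) (topOf v : P) ∧ (∀ x ∈ L', ∀ y, x ≤ y → y ∈ L') ∧
      (∀ x : QT m N v, x ∈ L ↔ x.1.1 ∈ L') ∧
      ∀ i' n, Z {x // x ∈ L} i' n = Z {x // x ∈ L'} i' n := by
  classical
  let φ : QT m N v → P := fun x => x.1.1
  have hφ : ∀ x y, φ x ≤ φ y ↔ x ≤ y := fun x y => Iff.rfl
  have hm : ∀ y, y ∈ L.image φ ↔ ∃ x ∈ L, φ x = y := fun y => mem_image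
  refine ⟨L.image φ, ?_, ?_, ?_, fun i' n => StA_Z_image hφ hm i' n⟩
  · intro y hy
    obtain ⟨x, hx, rfl⟩ := (hm y).mp hy
    exact mem_lowPart.mpr (S.mem_T W x.1.2 x.2)
  · intro y hy z hyz
    obtain ⟨x, hx, rfl⟩ := (hm y).mp hy
    have h1 : z ∉ Rq m N v := S.up W _ _ hyz x.1.2
    have h2 : topOf z = topOf v := (S.cp W hyz x.1.2).symm.trans x.2
    exact (hm z).mpr ⟨⟨⟨z, h1⟩, h2⟩, hL x _ hyz hx, rfl⟩
  · intro x
    rw [hm]
    constructor
    · intro h
      exact ⟨x, h, rfl⟩
    · rintro ⟨y, hy, h⟩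
      have : y = x := Subtype.ext (Subtype.ext h)
      rwa [← this]

lemma StG.card_top (W : WC r i m K N b θ) (S : StG i m k p N b θ f v Nc co) {l : ℕ}
    (hl : l < 2 * m - 7) :
    (univ.filter (fun x : P => lev x = l ∧ topOf x = topOf v)).card = 1 := by
  classical
  rw [← S.td.cn l hl]
  unfold cn lv
  rw [Finset.filter_filter]
  congr 1
  refine Finset.filter_congr fun x _ => ?_
  refine and_congr_right fun h2 => ?_
  rw [StC_top_iff W (by omega)]

lemma StG.ilt (S : StG i m k p N b θ f v Nc co) (W : WC r i m K N b θ) : i < 2 * m - 7 := by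
  have := S.hk
  have := S.k_pos W
  omega

/-- the number of elements of level `i` in the rest -/
lemma StG.lv_R (W : WC r i m K N b θ) (S : StG i m k p N b θ f v Nc co) :
    (lv (QR m N v) i).card + 1 = (lv P i).card := by
  classical
  have hil := S.ilt W
  have him := W.him
  have h1 := S.card_top W hil
  have h2 : (lv (QR m N v) i).card =
      (univ.filter (fun x : P => lev x = i ∧ ¬ topOf x = topOf v)).card := by
    unfold lv
    have h3 : (univ.filter (fun x : QR m N v => lev x = i)) =
        (univ.filter (fun x : QR m N v => lev (x.1.1 : P) = i)) :=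
      Finset.filter_congr fun x _ => by rw [S.levR W]
    rw [h3, card_sub' (p := fun x : QO m N v => ¬ topOf (x : P) = topOf v)
      (fun x : QO m N v => lev (x : P) = i),
      card_sub' (p := fun x : P => x ∉ Rq m N v)
        (fun x : P => ¬ topOf x = topOf v ∧ lev x = i)]
    congr 1
    refine Finset.filter_congr fun x _ => ?_
    constructor
    · rintro ⟨-, h4, h5⟩
      exact ⟨h5, h4⟩
    · rintro ⟨h4, h5⟩
      exact ⟨S.off W (by omega), h5, h4⟩
  rw [h2, ← h1]
  have h3 := Finset.card_filter_add_card_filter_not (s := (univ : Finset P).filter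
    (fun x => lev x = i)) (fun x => topOf x = topOf v)
  rw [Finset.filter_filter, Finset.filter_filter] at h3
  unfold lv
  omega

/-- the number of elements of level below `i` in the rest -/
lemma StG.below_R (W : WC r i m K N b θ) (S : StG i m k p N b θ f v Nc co) :
    below (QR m N v) i + i = below P i := by
  classical
  have hil := S.ilt W
  have him := W.him
  have h2 : below (QR m N v) i =
      (univ.filter (fun x : P => lev x < i ∧ ¬ topOf x = topOf v)).card := by
    unfold below
    have h3 : (univ.filter (fun x : QR m N v => lev x < i)) =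
        (univ.filter (fun x : QR m N v => lev (x.1.1 : P) < i)) :=
      Finset.filter_congr fun x _ => by rw [S.levR W]
    rw [h3, card_sub' (p := fun x : QO m N v => ¬ topOf (x : P) = topOf v)
      (fun x : QO m N v => lev (x : P) < i),
      card_sub' (p := fun x : P => x ∉ Rq m N v)
        (fun x : P => ¬ topOf x = topOf v ∧ lev x < i)]
    congr 1
    refine Finset.filter_congr fun x _ => ?_
    constructor
    · rintro ⟨-, h4, h5⟩
      exact ⟨h5, h4⟩
    · rintro ⟨h4, h5⟩
      exact ⟨S.off W (by omega), h5, h4⟩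
  have h4 : (univ.filter (fun x : P => lev x < i ∧ topOf x = topOf v)).card = i := by
    have h5 := Finset.card_eq_sum_card_fiberwise (f := fun x : P => lev x)
      (s := univ.filter (fun x : P => lev x < i ∧ topOf x = topOf v)) (t := range i)
      (fun x hx => by
        have := (mem_filter.mp hx).2.1
        exact mem_coe.mpr (mem_range.mpr this))
    rw [h5]
    have h6 : ∀ l ∈ range i, ((univ.filter (fun x : P => lev x < i ∧ topOf x = topOf v)).filter
        (fun x => lev x = l)).card = 1 := by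
      intro l hl
      rw [mem_range] at hl
      rw [← S.card_top W (l := l) (by omega), Finset.filter_filter]
      congr 1
      refine Finset.filter_congr fun x _ => ?_
      constructor
      · rintro ⟨⟨-, h7⟩, h8⟩
        exact ⟨h8, h7⟩
      · rintro ⟨h7, h8⟩
        exact ⟨⟨by omega, h8⟩, h7⟩
    rw [Finset.sum_congr rfl h6, Finset.sum_const, card_range, smul_eq_mul, mul_one]
  have h3 := Finset.card_filter_add_card_filter_not (s := (univ : Finset P).filter
    (fun x => lev x < i)) (fun x => topOf x = topOf v)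
  rw [Finset.filter_filter, Finset.filter_filter] at h3
  rw [h2]
  unfold below
  omega

lemma StG.lv_T (W : WC r i m K N b θ) (S : StG i m k p N b θ f v Nc co) :
    (lv (QT m N v) i).card = 1 := by
  classical
  have hil := S.ilt W
  have him := W.him
  rw [← S.card_top W (l := i) hil]
  unfold lv
  have h3 : (univ.filter (fun x : QT m N v => lev x = i)) =
      (univ.filter (fun x : QT m N v => lev (x.1.1 : P) = i)) :=
    Finset.filter_congr fun x _ => by rw [S.levT W]
  rw [h3, card_sub' (p := fun x : QO m N v => topOf (x : P) = topOf v)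
    (fun x : QO m N v => lev (x : P) = i),
    card_sub' (p := fun x : P => x ∉ Rq m N v)
      (fun x : P => topOf x = topOf v ∧ lev x = i)]
  congr 1
  refine Finset.filter_congr fun x _ => ?_
  constructor
  · rintro ⟨-, h4, h5⟩
    exact ⟨h5, h4⟩
  · rintro ⟨h4, h5⟩
    exact ⟨S.off W (by omega), h5, h4⟩

end

end Pool.Agent.GaussPoset.Fi
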