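import Pool.Agent.W_448s8f_h15.StC

/-!
The product of the two factors (MP_448cb3_co, S8, small `m`).
-/

namespace Pool.Agent.GaussPoset.Fi

set_option linter.unusedSectionVars false

open Polynomial Finset

universe u

variable {P : Type u} [Fintype P] [PartialOrder P] [DecidableEq P] {r i m K k p : ℕ}
  {N : Tops P → Finset P} {b : Tops P → ℕ} {θ : Tops P → P → ℕ}
  {f v : P} {Nc : Finset P} {co : P → ℕ × ℕ}

lemma StG.prod (W : WC r i m K N b θ) (S : StG i m k p N b θ f v Nc co) (β : P → ℕ) (n : ℕ) :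
    ZB i (Rq m N v) 0 β n = ∑ ab ∈ antidiagonal n,
      ZB (P := QT m N v) i ∅ 0 (fun x => β x.1.1) ab.1 *
      ZB (P := QR m N v) i ∅ 0 (fun x => β x.1.1) ab.2 := by
  have him := W.him
  rw [ZB_off_bound (S.lower W) (fun x hx => by
    have := S.lev_Rq W hx
    omega)]
  exact ZB_prod (fun x : QO m N v => topOf (x : P) = topOf v)
    (fun x y hxy => by rw [S.cp W hxy x.2]) i (fun x : QO m N v => β x) n

lemma StG.lev_vT (W : WC r i m K N b θ) (S : StG i m k p N b θ f v Nc co) :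
    lev (S.vT W) = 2 * m := by
  rw [S.levT W]
  exact S.td.lev

lemma StG.lev_fR (W : WC r i m K N b θ) (S : StG i m k p N b θ f v Nc co) :
    lev (S.fR W) = 2 * m := by
  rw [S.levR W]
  exact S.fold.1

lemma StG.two_le (W : WC r i m K N b θ) (S : StG i m k p N b θ f v Nc co) :
    2 ≤ (lv P i).card := by
  have him := W.him
  have h1 := S.lv_R W
  have h2 := one_le_nab (z := S.fR W) (l := i) (by rw [S.lev_fR W]; omega)
  have h3 := nab_le (S.fR W) i
  omega

/-- the order of the rest -/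
theorem StG.dvd_R (W : WC r i m K N b θ) (S : StG i m k p N b θ f v Nc co) (β : P → ℕ)
    (hβ : ∀ x, x ∉ Rq m N v → topOf x ≠ topOf v → β x ≤ thX (twY (2 * m) N) (twT N)
      (fun x => tq i θ f Nc co (topOf x) x) x) {n : ℕ} (hn : n < K - 1) :
    (1 + X : ℤ[X]) ^ ((lv P i).card - 2) ∣
      ZB (P := QR m N v) i ∅ 0 (fun x => β x.1.1) n := by
  classical
  have him := W.him
  have h2 := S.two_le W
  let β' : P → ℕ := fun x => if topOf x = topOf v then 0 else β x
  have e1 : (fun x : QT m N v => β' x.1.1) = 0 := by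
    funext x
    exact if_pos x.2
  have e2 : (fun x : QR m N v => β' x.1.1) = (fun x : QR m N v => β x.1.1) := by
    funext x
    exact if_neg x.2
  refine dvd_of_prod (A := fun a => Z (QT m N v) i a)
    (B := fun a => ZB (P := QR m N v) i ∅ 0 (fun x => β x.1.1) a) (α := 1)
    (β := (lv P i).card - 2) (N := K - 1) (u := below (QT m N v) i) ?_ ?_ ?_ n hn
  · rw [Z_zero, S.lv_T W]
  · intro a
    refine dvd_Z_of_dvd_W ?_ a
    rw [pow_one]
    exact dvd_W_one ⟨S.vT W, by rw [S.lev_vT W]; omega⟩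
  · intro n hn
    have h3 := S.bounds W β' (fun x hx => by
      show (if topOf x = topOf v then 0 else β x) ≤ _
      split_ifs with h
      · exact Nat.zero_le _
      · exact hβ x hx h) n hn
    rw [S.prod W, e1, e2, show (lv P i).card - 1 = 1 + ((lv P i).card - 2) by omega] at h3
    convert h3 using 2
    rw [Z_eq_ZB]

lemma StG.ct_v (W : WC r i m K N b θ) (S : StG i m k p N b θ f v Nc co) (i' k' : ℕ) :
    ct i' k' (S.vT W) = ct i' k' v := S.ctT W (S.vT W) i' k'

lemma StG.cls (W : WC r i m K N b θ) (S : StG i m k p N b θ f v Nc co)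
    (L : Finset (QT m N v)) (hL : ∀ x y, x ≤ y → x ∈ L → y ∈ L) (hv : S.vT W ∈ L) (n : ℕ)
    (hn : n < p) : (1 + X : ℤ[X]) ^ 2 ∣ Z {x // x ∈ L} (i + k) n := by
  obtain ⟨L', h1, h2, h3, h4⟩ := S.Z_T W hL
  rw [h4]
  have h5 : i + k = 2 * m - 7 := by
    have := S.hk
    omega
  rw [h5]
  exact S.td.cl L' h1 h2 ((h3 _).mp hv) n hn

lemma StG.T_dvd (W : WC r i m K N b θ) (S : StG i m k p N b θ f v Nc co) {β : P → ℕ}
    (hv : β v = k) (hv' : ∀ x, x ∉ Rq m N v → topOf x = topOf v → β x ≤ k) {a : ℕ}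
    (ha : a < ct i k v + p) :
    (1 + X : ℤ[X]) ^ 2 ∣ ZB (P := QT m N v) i ∅ 0 (fun x => β x.1.1) a := by
  refine StA_dvd (v := S.vT W) (k := k) (p := p) (fun x => hv' _ x.1.2 x.2) hv (S.cls W) ?_
  rw [S.ct_v W]
  exact ha

lemma StG.T_zero (W : WC r i m K N b θ) (S : StG i m k p N b θ f v Nc co) {β : P → ℕ}
    (hv : β v = k) {a : ℕ} (ha : a < ct i k v) :
    ZB (P := QT m N v) i ∅ 0 (fun x => β x.1.1) a = 0 := by
  have him := W.him
  refine ZB_bound_zero (z := S.vT W) (by rw [S.lev_vT W]; have := W.hi; omega) ?_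
  have h3 : β (S.vT W).1.1 = k := hv
  rw [h3, S.ct_v W]
  exact ha

lemma StG.T_lead (W : WC r i m K N b θ) (S : StG i m k p N b θ f v Nc co) {β : P → ℕ}
    (hv : β v = k) (hv' : ∀ x, x ∉ Rq m N v → topOf x = topOf v → x ≠ v → β x = 0) :
    (1 + X : ℤ[X]) ^ 2 ∣ ZB (P := QT m N v) i ∅ 0 (fun x => β x.1.1) (ct i k v + p) +
      X ^ (i + k + 2) * (1 + X) := by
  classical
  have him := W.him
  have hk := S.hk
  have hk1 := S.k_pos W
  have e1 : (fun x : QT m N v => β x.1.1) = sgz (S.vT W) k := by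
    funext x
    by_cases hx : x = S.vT W
    · rw [hx, sgz_self]
      exact hv
    · rw [sgz_ne _ hx]
      refine hv' _ x.1.2 x.2 fun h => hx ?_
      exact Subtype.ext (Subtype.ext h)
  rw [e1, ← S.ct_v W]
  refine StA_lead hk1 (by rw [S.lev_vT W]; omega) ?_ (S.cls W) ?_
  · intro x hx
    rw [S.levT W]
    have h1 := S.mem_T W x.1.2 x.2
    have h2 := S.td.out x.1.1 h1.1 h1.2 (fun h => hx h)
    omega
  · intro L hL
    have hLup : ∀ x y : QT m N v, x ≤ y → x ∈ L → y ∈ L := fun x y hxy hx =>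
      (hL y).mpr (((hL x).mp hx).trans hxy)
    obtain ⟨L', h1, h2, h3, h4⟩ := S.Z_T W hLup
    rw [h4]
    have h5 : i + k = 2 * m - 7 := by omega
    rw [h5]
    refine S.td.ld L' fun x => ?_
    constructor
    · intro hx
      have h6 := mem_lowPart.mp (h1 hx)
      have h7 : x ∉ Rq m N v := S.off W h6.2
      have h8 : topOf x = topOf v := (StC_top_iff W h6.2 _).mpr h6.1
      have h9 := (h3 ⟨⟨x, h7⟩, h8⟩).mpr hx
      exact (hL _).mp h9
    · intro hx
      have h7 : x ∉ Rq m N v := S.up W _ _ hx (S.off W S.td.lev.le)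
      have h8 : topOf x = topOf v := (S.cp W hx (S.off W S.td.lev.le)).symm
      exact (h3 ⟨⟨x, h7⟩, h8⟩).mp ((hL _).mpr hx)

lemma StG.R_zero (W : WC r i m K N b θ) (S : StG i m k p N b θ f v Nc co) {β : P → ℕ}
    (hf : k ≤ β f) {n : ℕ} (hn : n < ct i k f) :
    ZB (P := QR m N v) i ∅ 0 (fun x => β x.1.1) n = 0 := by
  have him := W.him
  refine ZB_bound_zero (z := S.fR W) (by rw [S.lev_fR W]; have := W.hi; omega) ?_
  rw [S.ctR W]
  have h2 := ct_mono (i := i) (le_refl f) hf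
  have h3 : ct i (β f) f = ct i (β (S.fR W).1.1) ((S.fR W).1.1 : P) := rfl
  rw [← h3]
  omega

/-- the energies below the first pole -/
theorem StG.main_lt (W : WC r i m K N b θ) (S : StG i m k p N b θ f v Nc co) {β : P → ℕ}
    (hv : β v = k) (hv' : ∀ x, x ∉ Rq m N v → topOf x = topOf v → β x ≤ k)
    (hf : k ≤ β f)
    (hβ : ∀ x, x ∉ Rq m N v → topOf x ≠ topOf v → β x ≤ thX (twY (2 * m) N) (twT N)
      (fun x => tq i θ f Nc co (topOf x) x) x) {n : ℕ}
    (hn : n < ct i k f + ct i k v + p) (hnK : n < K - 1) :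
    (1 + X : ℤ[X]) ^ (lv P i).card ∣ ZB i (Rq m N v) 0 β n := by
  have h2 := S.two_le W
  rw [S.prod W]
  refine Finset.dvd_sum fun ab hab => ?_
  rw [HasAntidiagonal.mem_antidiagonal] at hab
  rcases Nat.lt_or_ge ab.2 (ct i k f) with h | h
  · rw [S.R_zero W hf h, mul_zero]
    exact dvd_zero _
  · rw [show (lv P i).card = 2 + ((lv P i).card - 2) by omega, pow_add]
    exact mul_dvd_mul (S.T_dvd W hv hv' (by omega)) (S.dvd_R W β hβ (by omega))

/-- the number of elements above the fold end -/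
lemma StG.nab_i (W : WC r i m K N b θ) (S : StG i m k p N b θ f v Nc co) : nab i f = 5 := by
  have him := W.him
  have h8 := S.h8
  have hk := S.hk
  have h1 := W.fold_prof S.fold (2 * m - i) (by omega)
  rw [show 2 * m - (2 * m - i) = i by omega] at h1
  unfold pF at h1
  omega

lemma StG.nab_A (W : WC r i m K N b θ) (S : StG i m k p N b θ f v Nc co) :
    nab (i + k) f = 4 := by
  have him := W.him
  have h8 := S.h8
  have hk := S.hk
  have h1 := W.fold_prof S.fold 7 (by omega)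
  rw [show 2 * m - 7 = i + k by omega] at h1
  unfold pF at h1
  have := W.hmi
  omega

/-- the rest at its lowest energy -/
lemma StG.R_lead (W : WC r i m K N b θ) (S : StG i m k p N b θ f v Nc co) {β : P → ℕ}
    (hf : β f = k) (hf' : ∀ x, x ∉ Rq m N v → topOf x ≠ topOf v → x ≠ f → β x = 0) :
    ZB (P := QR m N v) i ∅ 0 (fun x => β x.1.1) (ct i k f) =
      X ^ (below (QR m N v) i + nst i (fun _ => k) f) * (1 + X) ^ ((lv P i).card - 2) := by
  have him := W.him
  have hk := S.hk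
  have hk1 := S.k_pos W
  have e1 : (fun x : QR m N v => β x.1.1) = sgz (S.fR W) k := by
    funext x
    by_cases hx : x = S.fR W
    · rw [hx, sgz_self]
      exact hf
    · rw [sgz_ne _ hx]
      refine hf' _ x.1.2 x.2 fun h => hx ?_
      exact Subtype.ext (Subtype.ext h)
  have hgr : GradedBelow (QR m N v) :=
    gbel_sub (S.upR W) (gbel_sub (S.up W) W.gt.H.gradedBelow)
  have h1 := ZD_lead (i := i) (k := k) (z := S.fR W) hgr hk1 (by rw [S.lev_fR W]; omega)
  have h2 : ct i k (S.fR W) = ct i k f := S.ctR W (S.fR W) i k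
  rw [h2] at h1
  rw [e1]
  refine Eq.trans h1 ?_
  unfold Lt
  have n0 : nab i (S.fR W) = 5 := by
    rw [S.nabR W]
    exact S.nab_i W
  have n1 : nab (i + k) (S.fR W) = 4 := by
    rw [S.nabR W]
    exact S.nab_A W
  have n2 : nst i (fun _ => k) (S.fR W) = nst i (fun _ => k) f := S.nstR W (S.fR W) i k
  have h4 := S.lv_R W
  have h5 := nab_le (S.fR W) i
  rw [n0] at h5
  simp only
  rw [n0, n1, n2]
  congr 2
  omega

/-- the first pole -/
theorem StG.main_eq (W : WC r i m K N b θ) (S : StG i m k p N b θ f v Nc co) {β : P → ℕ}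
    (hv : β v = k) (hv' : ∀ x, x ∉ Rq m N v → topOf x = topOf v → x ≠ v → β x = 0)
    (hf : β f = k) (hf' : ∀ x, x ∉ Rq m N v → topOf x ≠ topOf v → x ≠ f → β x = 0)
    (hβ : ∀ x, x ∉ Rq m N v → topOf x ≠ topOf v → β x ≤ thX (twY (2 * m) N) (twT N)
      (fun x => tq i θ f Nc co (topOf x) x) x) (hnK : ct i k f + ct i k v + p < K - 1) :
    (1 + X : ℤ[X]) ^ (lv P i).card ∣
      ZB i (Rq m N v) 0 β (ct i k f + ct i k v + p) -
        X ^ (below P i + k + 3 + nst i (fun _ => k) f) * (1 + X) ^ ((lv P i).card - 1) := by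
  classical
  have h2 := S.two_le W
  have hbel := S.below_R W
  have hvk : ∀ x, x ∉ Rq m N v → topOf x = topOf v → β x ≤ k := by
    intro x hx ht
    by_cases h : x = v
    · rw [h, hv]
    · rw [hv' x hx ht h]
      exact Nat.zero_le _
  have hmem : ((ct i k v + p, ct i k f) : ℕ × ℕ) ∈ antidiagonal (ct i k f + ct i k v + p) := by
    rw [HasAntidiagonal.mem_antidiagonal]
    simp only
    omega
  rw [S.prod W, ← Finset.add_sum_erase _ _ hmem]
  simp only
  rw [S.R_lead W hf hf']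
  have h3 : (1 + X : ℤ[X]) ^ (lv P i).card ∣
      ∑ ab ∈ (antidiagonal (ct i k f + ct i k v + p)).erase (ct i k v + p, ct i k f),
      ZB (P := QT m N v) i ∅ 0 (fun x => β x.1.1) ab.1 *
        ZB (P := QR m N v) i ∅ 0 (fun x => β x.1.1) ab.2 := by
    refine Finset.dvd_sum fun ab hab => ?_
    rw [mem_erase, HasAntidiagonal.mem_antidiagonal] at hab
    obtain ⟨hne, hab⟩ := hab
    rcases Nat.lt_or_ge ab.2 (ct i k f) with h | h
    · rw [S.R_zero W hf.ge h, mul_zero]
      exact dvd_zero _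
    · rcases Nat.lt_or_ge ab.1 (ct i k v + p) with h4 | h4
      · rw [show (lv P i).card = 2 + ((lv P i).card - 2) by omega, pow_add]
        exact mul_dvd_mul (S.T_dvd W hv hvk h4) (S.dvd_R W β hβ (by omega))
      · exfalso
        exact hne (Prod.ext (by simp only; omega) (by simp only; omega))
  obtain ⟨q1, hq1⟩ := S.T_lead W hv hv'
  obtain ⟨q2, hq2⟩ := h3
  rw [hq2]
  have e1 : ZB (P := QT m N v) i ∅ 0 (fun x => β x.1.1) (ct i k v + p) =
      (1 + X) ^ 2 * q1 - X ^ (i + k + 2) * (1 + X) := by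
    rw [← hq1]
    ring
  rw [e1]
  obtain ⟨c, hc⟩ : ∃ c, (lv P i).card = c + 2 := ⟨(lv P i).card - 2, by omega⟩
  rw [hc, show c + 2 - 2 = c by omega, show c + 2 - 1 = c + 1 by omega, ← hbel]
  refine ⟨q1 * X ^ (below (QR m N v) i + nst i (fun _ => k) f) + q2 -
    X ^ (i + k + 2 + (below (QR m N v) i + nst i (fun _ => k) f)), ?_⟩
  ring

end Pool.Agent.GaussPoset.Fi
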