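import Pool.Agent.W_448s8f_h15.StD

/-!
The labels below a star family, the first pole (MP_448cb3_co, S8, small `m`).
-/

namespace Pool.Agent.GaussPoset.Fi

set_option linter.unusedSectionVars false

open Polynomial Finset

universe u

variable {P : Type u} [Fintype P] [PartialOrder P] [DecidableEq P] {r i m K k p N1 : ℕ}
  {N : Tops P → Finset P} {b : Tops P → ℕ} {θ : Tops P → P → ℕ}
  {f v : P} {Nc : Finset P} {co : P → ℕ × ℕ}

/-- one more label costs at least the number of the levels -/
lemma StE_ct_succ {x : P} {a l : ℕ} (hl : lev x = l) (ha : i + k + a = l) :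
    ct i k x + a ≤ ct i (k + 1) x := by
  unfold ct
  rw [cst_eq, cst_eq, hl]
  have h1 : ∀ t ∈ range (l + 1), min k (t - i) * nab t x + (if i + k < t then 1 else 0) ≤
      min (k + 1) (t - i) * nab t x := by
    intro t ht
    rw [mem_range] at ht
    have h2 : 1 ≤ nab t x := one_le_nab (by omega)
    split_ifs with h3
    · rw [show min (k + 1) (t - i) = min k (t - i) + 1 by omega, add_mul, one_mul]
      omega
    · rw [Nat.add_zero]
      exact Nat.mul_le_mul_right _ (min_le_min (Nat.le_succ k) le_rfl)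
  refine le_trans ?_ (Finset.sum_le_sum h1)
  rw [Finset.sum_add_distrib]
  refine Nat.add_le_add_left ?_ _
  rw [← Finset.sum_filter, Finset.sum_const, smul_eq_mul, mul_one]
  have h4 : Finset.Ico (i + k + 1) (l + 1) ⊆ (range (l + 1)).filter (fun t => i + k < t) := by
    intro t ht
    rw [Finset.mem_Ico] at ht
    rw [mem_filter, mem_range]
    omega
  have h5 := Finset.card_le_card h4
  rw [Nat.card_Ico] at h5
  omega

/-- a star join below `f` and `v` -/
structure StJ (i m k : ℕ) (N : Tops P → Finset P) (θ : Tops P → P → ℕ) (f v z : P) : Prop where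
  bd : z ∈ bdR (r2 (2 * m) N)
  hl : lev z = 2 * m + 1
  zf : z ⋖ f
  zv : z ⋖ v
  lab : h2 (2 * m) N θ z = k

lemma StE_not_tw {x : P} (hl : lev x ≤ 2 * m) : x ∉ twY (2 * m) N := by
  intro h
  have := (mem_twY.mp h).2.1
  omega

lemma StE_not_r2 (W : WC r i m K N b θ) {x : P} (hl : lev x ≤ 2 * m) : x ∉ r2 (2 * m) N :=
  fun h => W.wi.low hl (mem_sdiff.mp h).1

/-- the label of a star join -/
lemma StG.label (W : WC r i m K N b θ) (S : StG i m k p N b θ f v Nc co) {z : P}
    (hz : z ∈ bdR (r2 (2 * m) N)) (zf : z ⋖ f) (zv : z ⋖ v) : h2 (2 * m) N θ z = k := by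
  have H := W.gt.H
  have hk := S.hk
  have hfv : f ≠ v := fun h => S.ne (by rw [h])
  have h1 : h2 (2 * m) N θ z ≤ k := by
    have h2 := hcan_le (θ := thX (twY (2 * m) N) (twT N) (fun x => θ (topOf x) x))
      (StE_not_r2 W S.fold.1.le) zf
    rw [thX_not (StE_not_tw S.fold.1.le), S.th_f0 W] at h2
    exact h2
  obtain ⟨x, hx, hzx, hh⟩ := hcan_spec
    (θ := thX (twY (2 * m) N) (twT N) (fun x => θ (topOf x) x)) hz
  rcases uc_pair H zf zv hfv hzx with h | h
  · subst h
    rw [thX_not (StE_not_tw S.fold.1.le), S.th_f0 W] at hh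
    exact hh
  · subst h
    rw [thX_not (StE_not_tw S.td.lev.le), S.q2] at hh
    simp only at hh
    have h3 := S.td.lev
    have h4 : h2 (2 * m) N θ z = hcan (r2 (2 * m) N)
      (thX (twY (2 * m) N) (twT N) (fun x => θ (topOf x) x)) z := rfl
    omega

lemma StG.dis (W : WC r i m K N b θ) (S : StG i m k p N b θ f v Nc co) {x : P} (h1 : f ≤ x)
    (h2 : v ≤ x) : False :=
  StC_disjL W S.fold.1.le S.td.lev.le S.ne h1 h2

lemma StE_key {a w : P} (hw : lev w = 2 * m + 1) (ha : lev a = 2 * m) : ¬ a ≤ w := by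
  intro haw
  rcases eq_or_lt_of_le haw with h | h
  · rw [h] at ha
    omega
  · have := lev_strictAnti h
    omega

/-- the cost of a star join -/
lemma StG.cst_ge (W : WC r i m K N b θ) (S : StG i m k p N b θ f v Nc co) {z : P}
    (Z : StJ i m k N θ f v z) :
    ct i k f + ct i k v + k ≤ cst i (h2 (2 * m) N θ) z := by
  classical
  have hk := S.hk
  have hl := Z.hl
  have h1 := two_anchor (m := i) (f := f) (v := v) (e := ez i (h2 (2 * m) N θ) z)
    (c := ez i (h2 (2 * m) N θ) z) (k1 := k) (k2 := k)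
    (fun x hx => by
      unfold ez
      rw [if_pos (Z.zf.1.le.trans hx), Z.lab])
    (fun x hx => by
      unfold ez
      rw [if_pos (Z.zv.1.le.trans hx), Z.lab])
    (fun x => S.dis W) {z} (fun w hw => by
      rw [mem_singleton] at hw
      rw [hw]
      exact ⟨StE_key hl S.fold.1, StE_key hl S.td.lev⟩) (fun _ _ => le_rfl)
  rw [Finset.sum_singleton] at h1
  have h2 : ez i (h2 (2 * m) N θ) z z = k := by
    unfold ez
    rw [if_pos le_rfl, Z.lab]
    omega
  rw [h2] at h1
  exact h1

/-- an element of the frozen set in the filter costs too much -/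
lemma StG.no_filter (W : WC r i m K N b θ) (S : StG i m k p N b θ f v Nc co) {e : P → ℕ}
    {F : Finset P} (hV : Vd i e F) {n : ℕ} (hs : ∑ x, e x = n)
    (hn : n ≤ ct i k f + ct i k v + k + p) {z : P}
    (Z : StJ i m k N θ f v z) (hd : Dgz (h2 (2 * m) N θ) e F z) {x : P} (hx : x ∈ Rq m N v) :
    x ∉ F := by
  classical
  intro hxF
  have hk := S.hk
  have hp := S.td.p_le
  have hlx := S.lev_Rq W hx
  obtain ⟨y1, hy1, hl1⟩ := exists_above' (x := x) (j := 2 * m + 1) (by omega)
  obtain ⟨y2, hy2, hl2⟩ := exists_above' (x := x) (j := 2 * m) (by omega)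
  have f1 := sub_le_of_mem hV (hV.1 x y1 hy1 hxF)
  have f2 := sub_le_of_mem hV (hV.1 x y2 hy2 hxF)
  have hc := ez_le hV (by rw [Z.hl]; omega) hd
  have hcb : ∀ y, ez i (h2 (2 * m) N θ) z y ≤ k := by
    intro y
    unfold ez
    split_ifs
    · rw [Z.lab]
      exact min_le_left _ _
    · exact Nat.zero_le _
  have hne : y1 ≠ y2 := by
    rintro rfl
    omega
  have h1 : ∑ y, (ez i (h2 (2 * m) N θ) z y + ((if y = y1 then 8 else 0) +
      (if y = y2 then 7 else 0))) ≤ ∑ y, e y := by
    refine Finset.sum_le_sum fun y _ => ?_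
    have hcy := hc y
    have hby := hcb y
    by_cases g1 : y = y1
    · subst g1
      rw [if_pos rfl, if_neg hne]
      omega
    · rw [if_neg g1, Nat.zero_add]
      by_cases g2 : y = y2
      · subst g2
        rw [if_pos rfl]
        omega
      · rw [if_neg g2, Nat.add_zero]
        exact hcy
  rw [Finset.sum_add_distrib, Finset.sum_add_distrib, Finset.sum_ite_eq' univ y1,
    Finset.sum_ite_eq' univ y2, if_pos (mem_univ _), if_pos (mem_univ _)] at h1
  have h2 := S.cst_ge W Z
  unfold cst at h2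
  omega

/-- the labels of configurations of small energy -/
theorem StG.good_labels (W : WC r i m K N b θ) (S : StG i m k p N b θ f v Nc co)
    {g e : P → ℕ} {F : Finset P} (hC : Cst i (Rq m N v) g 0 e F) {n : ℕ} (hs : ∑ x, e x = n)
    (hn : n ≤ ct i k f + ct i k v + k + p) {z : P} (Z : StJ i m k N θ f v z) (hg : k ≤ g z)
    (hU : ∀ y ∈ bdR (r2 (2 * m) N), y ∉ fam m N z → n < Uu i (h2 (2 * m) N θ) z y) :
    (∀ y ∈ Rq m N v, ∀ x, x ∉ Rq m N v → y ⋖ x → topOf x = topOf v → g y ≤ k) ∧
    ∀ y ∈ Rq m N v, ∀ x, x ∉ Rq m N v → y ⋖ x → topOf x ≠ topOf v →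
      g y ≤ thX (twY (2 * m) N) (twT N) (fun x => tq i θ f Nc co (topOf x) x) x := by
  classical
  have hk := S.hk
  have hk1 := S.k_pos W
  have hp := S.td.p_le
  have hp1 := S.td.pos
  have H := W.gt.H
  obtain ⟨hV, hR, -⟩ := hC
  have hzR : z ∈ Rq m N v := (S.mem_Rq W).mpr (Or.inl (bd_mem Z.bd))
  have hez : k ≤ e z := by
    rw [(hR z hzR).2]
    exact hg
  have hfv : f ≠ v := fun h => S.ne (by rw [h])
  have hup : ∀ (w : P), i < lev w → ∀ k', k' ≤ e w → ∀ x, w ≤ x →
      min k' (lev x - i) ≤ e x := by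
    intro w hw k' hk' x hx
    have h1 := ez_le (h := fun _ => k') hV hw (Or.inr hk') x
    unfold ez at h1
    rwa [if_pos hx] at h1
  have hnot : ∀ w : P, lev w = 2 * m + 1 → ¬ f ≤ w ∧ ¬ v ≤ w := fun w hw =>
    ⟨StE_key hw S.fold.1, StE_key hw S.td.lev⟩
  have hzf : ∀ x, f ≤ x → min k (lev x - i) ≤ e x := fun x hx =>
    hup z (by rw [Z.hl]; omega) _ hez x (Z.zf.1.le.trans hx)
  have hzv : ∀ x, v ≤ x → min k (lev x - i) ≤ e x := fun x hx =>
    hup z (by rw [Z.hl]; omega) _ hez x (Z.zv.1.le.trans hx)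
  have hcf := StE_ct_succ (i := i) (k := k) (x := f) (a := 7) S.fold.1 hk
  have hcv := StE_ct_succ (i := i) (k := k) (x := v) (a := 7) S.td.lev hk
  have hG1 : ∀ y ∈ Rq m N v, y ⋖ v → g y ≤ k := by
    intro y hy hyv
    by_contra hcon
    have hly : lev y = 2 * m + 1 := by
      have h1 := (H.covBy_iff.mp hyv).2
      have h2 := S.td.lev
      omega
    have hey : k + 1 ≤ e y := by
      rw [(hR y hy).2]
      omega
    by_cases hyz : y = z
    · subst hyz
      have h1 := two_anchor (m := i) (f := f) (v := v) (e := e) (c := e) (k1 := k + 1)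
        (k2 := k + 1)
        (fun x hx => hup y (by omega) _ hey x (Z.zf.1.le.trans hx))
        (fun x hx => hup y (by omega) _ hey x (Z.zv.1.le.trans hx))
        (fun x => S.dis W) {y} (fun w hw => by
          rw [mem_singleton] at hw
          rw [hw]
          exact hnot y hly) (fun _ _ => le_rfl)
      rw [Finset.sum_singleton] at h1
      omega
    · have h1 := two_anchor (m := i) (f := f) (v := v) (e := e) (c := e) (k1 := k)
        (k2 := k + 1) hzf
        (fun x hx => hup y (by omega) _ hey x (hyv.1.le.trans hx))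
        (fun x => S.dis W) {y, z} (fun w hw => by
          rw [mem_insert, mem_singleton] at hw
          rcases hw with rfl | rfl
          · exact hnot w hly
          · exact hnot w Z.hl) (fun _ _ => le_rfl)
      rw [Finset.sum_pair hyz] at h1
      omega
  refine ⟨?_, ?_⟩
  · intro y hy x hx hyx hxt
    by_cases hxv : x = v
    · subst hxv
      exact hG1 y hy hyx
    · by_contra hcon
      have hT := S.mem_T W hx hxt
      have hly0 := S.lev_Rq W hy
      have hcyx := (H.covBy_iff.mp hyx).2
      have hlx : lev x = 2 * m := by omega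
      have hly : lev y = 2 * m + 1 := by omega
      have hey : k + 1 ≤ e y := by
        rw [(hR y hy).2]
        omega
      have hyz : y ≠ z := by
        rintro rfl
        rcases uc_pair H Z.zf Z.zv hfv hyx with h | h
        · exact S.ne (by rw [← h, hxt])
        · exact hxv h
      set T0 : Finset P := univ.filter (fun w => x ≤ w ∧ ¬ v ≤ w) with hT0
      have hmT : ∀ w, w ∈ T0 ↔ x ≤ w ∧ ¬ v ≤ w := fun w => by
        rw [hT0, mem_filter]
        simp
      have hot := (S.td.ot x hT.1 hlx hxv T0 hmT).1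
      have hyT : y ∉ insert z T0 := by
        rw [mem_insert, hmT]
        rintro (h | h)
        · exact hyz h
        · exact StE_key hly hlx h.1
      have hzT : z ∉ T0 := by
        rw [hmT]
        intro h
        exact StE_key Z.hl hlx h.1
      have h1 := two_anchor (m := i) (f := f) (v := v) (e := e)
        (c := fun w => if w = z then k else k + 1) (k1 := k) (k2 := k) hzf hzv
        (fun x => S.dis W) (insert y (insert z T0)) (fun w hw => by
          rw [mem_insert, mem_insert, hmT] at hw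
          rcases hw with rfl | rfl | hw
          · exact hnot w hly
          · exact hnot w Z.hl
          · exact ⟨fun h => StC_disjL W S.fold.1.le hlx.le (by rw [hxt]; exact S.ne) h hw.1,
              hw.2⟩) (fun w hw => by
          show (if w = z then k else k + 1) ≤ e w
          rw [mem_insert, mem_insert, hmT] at hw
          split_ifs with h
          · rw [h]
            exact hez
          · rcases hw with rfl | rfl | hw
            · exact hey
            · exact absurd rfl h
            · have h3 := hup y (by omega) _ hey w (hyx.1.le.trans hw.1)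
              have h4 : topOf w = topOf v := by
                rw [← hxt]
                exact (S.cp W hw.1 hx).symm
              have h5 := S.mem_T W (S.up W _ _ hw.1 hx) h4
              have h6 := S.td.out w h5.1 h5.2 hw.2
              omega)
      rw [Finset.sum_insert hyT, Finset.sum_insert hzT, if_neg hyz, if_pos rfl,
        Finset.sum_congr rfl (g := fun _ => k + 1) (fun w hw => by
          rw [if_neg]
          rintro rfl
          exact hzT hw), Finset.sum_const, smul_eq_mul] at h1
      have h2 : p * 2 ≤ (k + 1) + T0.card * (k + 1) := by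
        calc p * 2 ≤ (1 + T0.card) * (k + 1) := Nat.mul_le_mul hot (by omega)
          _ = (k + 1) + T0.card * (k + 1) := by ring
      omega
  · intro y hy x hx hyx hxt
    -- the element `y` is a boundary element of the old set
    have hyR : y ∈ r2 (2 * m) N := by
      rcases (S.mem_Rq W).mp hy with h | ⟨h1, h2⟩
      · exact h
      · by_contra hcon
        have hyY : y ∉ twY (2 * m) N := fun h => S.tw_ne W h h1
        have hyN : y ∉ unnat N := fun h => hcon (mem_sdiff.mpr ⟨h, hyY⟩)
        exact hxt ((W.wi.natSys.cp y x hyx.1.le hyN).symm.trans h1)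
    have hxR : x ∉ r2 (2 * m) N := fun h => hx ((S.mem_Rq W).mpr (Or.inl h))
    have hyb : y ∈ bdR (r2 (2 * m) N) := mem_filter.mpr ⟨hyR, x, hxR, hyx⟩
    by_cases hyA : y ∈ fam m N z
    · have hup2 := (mem_fam.mp hyA).2
      have h1 : z ⋖ x := (cov_of_up hup2).mpr hyx
      rcases uc_pair H Z.zf Z.zv hfv h1 with h2 | h2
      · subst h2
        rw [thX_not (StE_not_tw S.fold.1.le), S.th_f W]
        have h4 := hG1 y hy ((cov_of_up hup2).mp Z.zv)
        omega
      · exact absurd (by rw [h2]) hxt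
    · have h1 := hU y hyb hyA
      have h3 : g y < h2 (2 * m) N θ y := by
        by_contra hcon
        have h4 : h2 (2 * m) N θ y ≤ e y := by
          rw [(hR y hy).2]
          exact not_lt.mp hcon
        have h5 := ez_le (h := h2 (2 * m) N θ) hV (by
          have := S.lev_Rq W hy
          omega) (Or.inr h4)
        have h6 := ez_le (h := h2 (2 * m) N θ) (z := z) hV (by rw [Z.hl]; omega) (Or.inr (by
          rw [Z.lab]
          exact hez))
        have h7 : Uu i (h2 (2 * m) N θ) z y ≤ ∑ x, e x :=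
          Finset.sum_le_sum fun w _ => max_le (h6 w) (h5 w)
        omega
      have h4 : h2 (2 * m) N θ y ≤
          thX (twY (2 * m) N) (twT N) (fun x => θ (topOf x) x) x + 1 := hcan_le hxR hyx
      have h5 : thX (twY (2 * m) N) (twT N) (fun x => θ (topOf x) x) x ≤
          thX (twY (2 * m) N) (twT N) (fun x => tq i θ f Nc co (topOf x) x) x := by
        unfold thX
        split_ifs
        · exact S.th_le _ _
        · exact S.th_le _ _
      omega

/-- bounds from the labels -/
lemma StG.bg_v (W : WC r i m K N b θ) (S : StG i m k p N b θ f v Nc co) {g : P → ℕ}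
    (h1 : ∀ y ∈ Rq m N v, ∀ x, x ∉ Rq m N v → y ⋖ x → topOf x = topOf v → g y ≤ k) {z : P}
    (Z : StJ i m k N θ f v z) (hg : k ≤ g z) : bg (Rq m N v) g 0 v = k := by
  have hzR : z ∈ Rq m N v := (S.mem_Rq W).mpr (Or.inl (bd_mem Z.bd))
  exact le_antisymm (bg_le (Nat.zero_le _) (fun y hy hyv => h1 y hy v (S.off W S.td.lev.le)
    hyv rfl)) (hg.trans (le_bg' 0 hzR Z.zv))

/-- the contribution of a label -/
theorem StG.term_dvd (W : WC r i m K N b θ) (S : StG i m k p N b θ f v Nc co)
    {g : P → ℕ} (hg0 : ∀ x, x ∉ Rq m N v → g x = 0) {z : P} (Z : StJ i m k N θ f v z)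
    (hg : k ≤ g z) {n : ℕ} (hn : n ≤ ct i k f + ct i k v + k + p) (hnK : n < K - 1)
    (hU : ∀ y ∈ bdR (r2 (2 * m) N), y ∉ fam m N z → n < Uu i (h2 (2 * m) N θ) z y)
    (hne : ¬ (n = ct i k f + ct i k v + k + p ∧ g = sgz z k)) :
    (1 + X : ℤ[X]) ^ (lv P i).card ∣ ZB i (Rq m N v) g 0 n := by
  classical
  have him := W.him
  have hlev : ∀ x ∈ Rq m N v, i < lev x := fun x hx => by
    have := S.lev_Rq W hx
    omega
  have hzR : z ∈ Rq m N v := (S.mem_Rq W).mpr (Or.inl (bd_mem Z.bd))
  by_cases hex : ∃ e F, Cst i (Rq m N v) g 0 e F ∧ ∑ x, e x = n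
  · obtain ⟨e, F, hC, hs⟩ := hex
    obtain ⟨G1, G2⟩ := S.good_labels W hC hs hn Z hg hU
    by_cases hc : ∀ x ∈ Rq m N v, ∀ y ∈ Rq m N v, x ≤ y → g x ≤ g y
    · have hsum : g z ≤ ∑ x, g x := Finset.single_le_sum (fun _ _ => Nat.zero_le _) (mem_univ z)
      have hle : ∑ x, g x ≤ n := by
        rw [← hs]
        refine Finset.sum_le_sum fun x _ => ?_
        by_cases hx : x ∈ Rq m N v
        · exact (hC.2.1 x hx).2.ge
        · rw [hg0 x hx]
          exact Nat.zero_le _
      obtain ⟨n', hn'⟩ : ∃ n', n = n' + ∑ x, g x := ⟨n - ∑ x, g x, by omega⟩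
      rw [hn', ZB_shift 0 (S.lower W) hlev hg0 hc]
      refine S.main_lt W (S.bg_v W G1 Z hg) (fun x hx ht => bg_le (Nat.zero_le _)
          fun y hy hyx => G1 y hy x hx hyx ht)
        (hg.trans (le_bg' 0 hzR Z.zf)) (fun x hx ht => bg_le (Nat.zero_le _)
          fun y hy hyx => G2 y hy x hx hyx ht) ?_ (by omega)
      by_contra hcon
      refine hne ⟨by omega, ?_⟩
      have h5 : ∑ x, g x = k := by omega
      have h6 : g z = k := by omega
      funext x
      by_cases hx : x = z
      · rw [hx, sgz_self, h6]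
      · rw [sgz_ne _ hx]
        have h7 : g z + g x ≤ ∑ x, g x := by
          rw [← Finset.add_sum_erase univ g (mem_univ z)]
          exact Nat.add_le_add_left (Finset.single_le_sum (f := g) (fun _ _ => Nat.zero_le _)
            (mem_erase.mpr ⟨hx, mem_univ x⟩)) _
        omega
    · rw [ZB_zero_of_not_compat 0 hlev hc]
      exact dvd_zero _
  · have : ZB i (Rq m N v) g 0 n = 0 := by
      unfold ZB
      refine Finset.sum_eq_zero fun F _ => ?_
      rw [Finset.filter_eq_empty_iff.mpr, Finset.sum_empty]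
      intro e he hC
      rw [mem_piAntidiag] at he
      exact hex ⟨e, F, hC, he.1⟩
    rw [this]
    exact dvd_zero _

/-- the contribution of the lowest label -/
theorem StG.term_lead (W : WC r i m K N b θ) (S : StG i m k p N b θ f v Nc co) {z : P}
    (Z : StJ i m k N θ f v z) (hnK : ct i k f + ct i k v + k + p < K - 1) :
    (1 + X : ℤ[X]) ^ (lv P i).card ∣
      ZB i (Rq m N v) (sgz z k) 0 (ct i k f + ct i k v + k + p) -
      X ^ (below P i + k + 3 + nst i (fun _ => k) f) * (1 + X) ^ ((lv P i).card - 1) := by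
  classical
  have him := W.him
  have H := W.gt.H
  have hlev : ∀ x ∈ Rq m N v, i < lev x := fun x hx => by
    have := S.lev_Rq W hx
    omega
  have hzR : z ∈ Rq m N v := (S.mem_Rq W).mpr (Or.inl (bd_mem Z.bd))
  have hfv : f ≠ v := fun h => S.ne (by rw [h])
  have hsum : ∑ x, sgz z k x = k := by
    unfold sgz
    rw [Finset.sum_ite_eq' univ z, if_pos (mem_univ z)]
  have hle : ∀ y, sgz z k y ≤ k := by
    intro y
    unfold sgz
    split_ifs
    · exact le_rfl
    · exact Nat.zero_le _
  have hg0 : ∀ x, x ∉ Rq m N v → sgz z k x = 0 := fun x hx =>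
    sgz_ne _ (fun h => hx (h ▸ hzR))
  have hc : ∀ x ∈ Rq m N v, ∀ y ∈ Rq m N v, x ≤ y → sgz z k x ≤ sgz z k y := by
    intro x hx y hy hxy
    by_cases h1 : x = z
    · subst h1
      have h2 : y = x := by
        by_contra hne
        have h3 : x < y := lt_of_le_of_ne hxy (Ne.symm hne)
        have h4 := lev_strictAnti h3
        have h5 := S.lev_Rq W hy
        have h6 := Z.hl
        omega
      rw [h2]
    · rw [sgz_ne _ h1]
      exact Nat.zero_le _
  rw [show ct i k f + ct i k v + k + p = (ct i k f + ct i k v + p) + ∑ x, sgz z k x by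
    rw [hsum]
    omega, ZB_shift 0 (S.lower W) hlev hg0 hc]
  have hcov : ∀ x, z ⋖ x → x = f ∨ x = v := fun x hzx => uc_pair H Z.zf Z.zv hfv hzx
  refine S.main_eq W (S.bg_v W (fun y _ _ _ _ _ => hle y) Z (by rw [sgz_self]))
    ?_ ?_ ?_ ?_ (by omega)
  · intro x hx ht hxv
    refine Nat.le_zero.mp (bg_le (Nat.zero_le _) fun y hy hyx => ?_)
    by_cases h1 : y = z
    · subst h1
      rcases hcov x hyx with h | h
      · exact absurd (by rw [← h, ht]) S.ne
      · exact absurd h hxv
    · rw [sgz_ne _ h1]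
  · refine le_antisymm (bg_le (Nat.zero_le _) fun y _ _ => hle y) ?_
    have := le_bg' (g := sgz z k) 0 hzR Z.zf
    rwa [sgz_self] at this
  · intro x hx ht hxf
    refine Nat.le_zero.mp (bg_le (Nat.zero_le _) fun y hy hyx => ?_)
    by_cases h1 : y = z
    · subst h1
      rcases hcov x hyx with h | h
      · exact absurd h hxf
      · exact absurd (by rw [h]) ht
    · rw [sgz_ne _ h1]
  · intro x hx ht
    refine bg_le (Nat.zero_le _) fun y hy hyx => ?_
    by_cases h1 : y = z
    · subst h1
      rcases hcov x hyx with h | h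
      · subst h
        rw [thX_not (StE_not_tw S.fold.1.le), S.th_f W, sgz_self]
        omega
      · exact absurd (by rw [h]) ht
    · rw [sgz_ne _ h1]
      exact Nat.zero_le _

/-- **The star families**: the first pole is at `ct i k f + ct i k v + k + p`. -/
theorem WC.star (W : WC r i m K N b θ) {k p N1 : ℕ} (hk : i + k + 7 = 2 * m)
    (h8 : 2 * (i / 2) = 8) {z0 f v : P} (hz0 : z0 ∈ bdR (r2 (2 * m) N))
    (hl : lev z0 = 2 * m + 1) (hf : Fd m f) (hzf : z0 ⋖ f) (hzv : z0 ⋖ v)
    (ht : topOf f ≠ topOf v) (g1 : N (topOf v) = onlyB (topOf v))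
    (g2 : θ (topOf v) = fun x => lev x - i) (g3 : b (topOf v) = 1)
    (g5 : ∀ x, x ≤ (topOf v : P) → lev x ≤ 2 * m → x ∈ onlyB (topOf v))
    (D : TD m (topOf v) v p) (hN1 : N1 + 1 ≤ K)
    (hU : ∀ z ∈ fam m N z0, ∀ y ∈ bdR (r2 (2 * m) N), y ∉ fam m N z0 → ∀ n,
      n ≤ ct i k f + ct i k v + k + p → n < N1 → n < Uu i (h2 (2 * m) N θ) z y) :
    (∀ n < ct i k f + ct i k v + k + p, n < N1 → (1 + X : ℤ[X]) ^ (lv P i).card ∣
      ZF i (h2 (2 * m) N θ) (fam m N z0) n) ∧
    (ct i k f + ct i k v + k + p < N1 → (1 + X : ℤ[X]) ^ (lv P i).card ∣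
      ZF i (h2 (2 * m) N θ) (fam m N z0) (ct i k f + ct i k v + k + p) -
      ∑ _z ∈ fam m N z0, X ^ (below P i + k + 3 + nst i (fun _ => k) f) *
        (1 + X) ^ ((lv P i).card - 1)) := by
  classical
  have H := W.gt.H
  obtain ⟨Nc, co, hFT⟩ := W.fold_typ hf
  have S : StG i m k p N b θ f v Nc co := ⟨hf, hFT, g1, g2, g3, g5, D, ht, hk, h8⟩
  have hk1 := S.k_pos W
  have hZ : ∀ z ∈ fam m N z0, StJ i m k N θ f v z := by
    intro z hz
    obtain ⟨h1, h2⟩ := mem_fam.mp hz
    have hlz : lev z = 2 * m + 1 := by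
      rw [← lev_eq_of_up h2]
      exact hl
    have h3 := (cov_of_up h2).mp hzf
    have h4 := (cov_of_up h2).mp hzv
    exact ⟨h1, hlz, h3, h4, S.label W h1 h3 h4⟩
  have hAR : fam m N z0 ⊆ Rq m N v := fun z hz =>
    (S.mem_Rq W).mpr (Or.inl (bd_mem (hZ z hz).bd))
  have hU' : ∀ z ∈ fam m N z0, ∀ n, n ≤ ct i k f + ct i k v + k + p → n < N1 →
      ∀ y ∈ bdR (r2 (2 * m) N), y ∉ fam m N z → n < Uu i (h2 (2 * m) N θ) z y := by
    intro z hz n hn hn1 y hy hyz
    rw [fam_eq hz] at hyz
    exact hU z hz y hy hyz n hn hn1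
  set E := ct i k f + ct i k v + k + p with hE
  have hlab : ∀ n, n ≤ E → ZF i (h2 (2 * m) N θ) (fam m N z0) n =
      ∑ g ∈ Fintype.piFinset (fun _ : P => range (n + 1)),
        if (∀ x, x ∉ Rq m N v → g x = 0) ∧ (∃ z ∈ fam m N z0, h2 (2 * m) N θ z ≤ g z) then
          ZB i (Rq m N v) g 0 n else 0 := by
    intro n hn
    refine ZF_labels hAR ?_
    rintro e F hV hs ⟨z, hz, hd⟩ x hx
    exact S.no_filter W hV hs hn (hZ z hz) hd hx
  constructor
  · intro n hn hn1
    rw [hlab n hn.le]
    refine Finset.dvd_sum fun g _ => ?_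
    split_ifs with h
    · obtain ⟨h1, z, hz, h3⟩ := h
      rw [(hZ z hz).lab] at h3
      exact S.term_dvd W h1 (hZ z hz) h3 hn.le (by omega) (hU' z hz n hn.le hn1)
        (fun h4 => by omega)
    · exact dvd_zero _
  · intro hN
    rw [hlab _ le_rfl]
    set I := (fam m N z0).image (fun z => sgz z k) with hI
    have hsub : I ⊆ Fintype.piFinset (fun _ : P => range (E + 1)) := by
      intro g hg
      obtain ⟨z, hz, rfl⟩ := mem_image.mp hg
      rw [Fintype.mem_piFinset]
      intro x
      rw [mem_range]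
      unfold sgz
      split_ifs <;> omega
    have hinj : ∀ z ∈ fam m N z0, ∀ z' ∈ fam m N z0, sgz z k = sgz z' k → z = z' := by
      intro z _ z' _ h
      by_contra hzz
      have h1 := congrFun h z
      rw [sgz_self, sgz_ne _ hzz] at h1
      omega
    rw [← Finset.sum_sdiff hsub, hI, Finset.sum_image hinj, ← hI, add_sub_assoc,
      ← Finset.sum_sub_distrib]
    refine dvd_add (Finset.dvd_sum fun g hg => ?_) (Finset.dvd_sum fun z hz => ?_)
    · split_ifs with h
      · obtain ⟨h1, z, hz, h3⟩ := h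
        rw [(hZ z hz).lab] at h3
        refine S.term_dvd W h1 (hZ z hz) h3 le_rfl (by omega) (hU' z hz E le_rfl hN)
          (fun h4 => ?_)
        refine (mem_sdiff.mp hg).2 ?_
        rw [hI, h4.2]
        exact mem_image_of_mem _ hz
      · exact dvd_zero _
    · rw [if_pos]
      · exact S.term_lead W (hZ z hz) (by omega)
      · refine ⟨fun x hx => sgz_ne _ (fun h => hx (h ▸ hAR hz)), z, hz, ?_⟩
        rw [sgz_self, (hZ z hz).lab]

end Pool.Agent.GaussPoset.Fi
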