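import Pool.Agent.W_448s8f_h15.StE
import Pool.Agent.W_448s8f_h76.FiI

/-!
The star theorem in the form used by the ladders (MP_448cb3_co, S8, small `m`).
-/

namespace Pool.Agent.GaussPoset.Fi

set_option linter.unusedSectionVars false

open Polynomial Finset

universe u

variable {P : Type u} [Fintype P] [PartialOrder P] [DecidableEq P] {r i m K : ℕ}
  {N : Tops P → Finset P} {b : Tops P → ℕ} {θ : Tops P → P → ℕ}

theorem WC.starT (W : WC r i m K N b θ) (hk : i + kF i m + 7 = 2 * m)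
    (h8 : 2 * (i / 2) = 8) : StarT i m K N b θ := by
  intro N1 hN1 z f v p Z hz g1 g2 g3 g5 hU
  obtain ⟨h1, h2⟩ := W.star hk h8 hz Z.lev Z.fd Z.zf Z.zv Z.ne g1 g2 g3 g5 Z.td hN1 hU
  refine ⟨h1, fun hE => ⟨fun _ => below P i + kF i m + 3 + nst i (fun _ => kF i m) f,
    h2 hE, fun _ _ => ?_⟩⟩
  rw [show below P i + kF i m + 3 + nst i (fun _ => kF i m) f =
    (below P i + kF i m + 1 + nst i (fun _ => kF i m) f) + 2 by ring, pow_add]
  norm_num

/-- the three cases -/
theorem WC.starT_three (W : WC r i m K N b θ)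
    (hc : (i = 8 ∧ m = 8) ∨ (i = 9 ∧ m = 9) ∨ (i = 8 ∧ m = 9)) : StarT i m K N b θ := by
  rcases hc with ⟨rfl, rfl⟩ | ⟨rfl, rfl⟩ | ⟨rfl, rfl⟩
  · exact W.starT (by decide) (by decide)
  · exact W.starT (by decide) (by decide)
  · exact W.starT (by decide) (by decide)

end Pool.Agent.GaussPoset.Fi
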